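import Pool.Agent.H447.QR.Stm2

/-!
# Project QR, task TOR (helper189)

Torsion of `y² = x³ - 432 A²`.  With `t = y / (36 A)` duplication is `t ↦ (t⁴ - 6 t² - 3) / (8 t³)`;
the product `|num t| · den t` strictly increases under duplication unless `t = 0, ±1`.
-/

set_option autoImplicit false

open WeierstrassCurve

namespace Pool.Agent.H189.QR.TOR

open Pool.Agent.H447.QR

/-- the product of numerator and denominator -/
def Ph (t : ℚ) : ℕ := t.num.natAbs * t.den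

/-- duplication in terms of `t` -/
def dup (t : ℚ) : ℚ := (t ^ 4 - 6 * t ^ 2 - 3) / (8 * t ^ 3)

/-- a quotient of integers -/
lemma quo (N M : ℤ) (hM : M ≠ 0) : ∃ c : ℤ, c ∣ N ∧ c ∣ M ∧
    N.natAbs * M.natAbs = c.natAbs ^ 2 * Ph ((N : ℚ) / (M : ℚ)) := by
  obtain ⟨c, h1, h2⟩ := Rat.exists_eq_mul_div_num_and_eq_mul_div_den N hM
  refine ⟨c, ⟨_, h1⟩, ⟨_, h2⟩, ?_⟩
  have e1 : N.natAbs = c.natAbs * ((N : ℚ) / (M : ℚ)).num.natAbs := by
    have := congrArg Int.natAbs h1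
    rw [Int.natAbs_mul] at this
    exact this
  have e2 : M.natAbs = c.natAbs * ((N : ℚ) / (M : ℚ)).den := by
    have := congrArg Int.natAbs h2
    rw [Int.natAbs_mul, Int.natAbs_natCast] at this
    exact this
  unfold Ph
  calc N.natAbs * M.natAbs
      = (c.natAbs * ((N : ℚ) / (M : ℚ)).num.natAbs) * (c.natAbs * ((N : ℚ) / (M : ℚ)).den) := by
        rw [← e1, ← e2]
    _ = _ := by ring

/-- odd integers -/
lemma odd_sq8 {a : ℤ} (h : Odd a) : (8 : ℤ) ∣ a ^ 2 - 1 := by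
  obtain ⟨k, rfl⟩ := h
  have h2 : Even (k * (k + 1)) := Int.even_mul_succ_self k
  obtain ⟨r, hr⟩ := h2
  refine ⟨r, ?_⟩
  linear_combination 4 * hr

lemma c_dvd8 {c N K : ℤ} (h1 : c ∣ N) (h2 : c ∣ 8 * K) (h5 : IsCoprime N K) : c ∣ 8 := by
  have h6 : IsCoprime c K := h5.of_isCoprime_of_dvd_left h1
  exact h6.dvd_of_dvd_mul_right h2

lemma nat_c {c N : ℤ} (h : c ∣ 8) (hN : Odd N) (hc : c ∣ N) : c.natAbs = 1 := by
  have h1 : IsCoprime N 8 := by
    have : IsCoprime N (2 ^ 3) := by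
      apply IsCoprime.pow_right
      exact Int.isCoprime_iff_gcd_eq_one.2 (by
        have := Int.isCoprime_iff_gcd_eq_one.1 ((Int.isCoprime_two_right).2 hN)
        exact this)
    exact this
  have h2 : IsUnit c := h1.isUnit_of_dvd' hc h
  exact Int.isUnit_iff_natAbs_eq.1 h2

lemma natAbs_le8 {c : ℤ} (h : c ∣ 8) : c.natAbs ≤ 8 := by
  have := Int.natAbs_dvd_natAbs.2 h
  exact Nat.le_of_dvd (by norm_num) this

/-- the arithmetic core -/
lemma core (N K : ℤ) (n k v : ℕ) (hN0 : N ≠ 0) (hK0 : K ≠ 0) (hc : IsCoprime N K)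
    (hn : N.natAbs = n) (hk : K.natAbs = k)
    (hpar : Odd N ∨ (8 : ℤ) ∣ N)
    (h1 : v < 8 * k) (h2 : (8 : ℤ) ∣ N → v < k ∨ (v = k ∧ 8 < n)) :
    v < Ph ((N : ℚ) / ((8 * K : ℤ) : ℚ)) := by
  have hM : (8 * K : ℤ) ≠ 0 := mul_ne_zero (by norm_num) hK0
  obtain ⟨c, hcN, hcM, he⟩ := quo N (8 * K) hM
  have hc8 : c ∣ 8 := c_dvd8 hcN hcM hc
  have hMa : (8 * K : ℤ).natAbs = 8 * k := by
    rw [Int.natAbs_mul, hk]
    rfl
  rw [hn, hMa] at he
  generalize Ph ((N : ℚ) / ((8 * K : ℤ) : ℚ)) = F at he ⊢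
  rcases hpar with ho | h8
  · have hc1 : c.natAbs = 1 := nat_c hc8 ho hcN
    rw [hc1] at he
    have hn1 : 1 ≤ n := by
      have : N.natAbs ≠ 0 := Int.natAbs_ne_zero.2 hN0
      omega
    nlinarith [Nat.mul_le_mul_right (8 * k) hn1]
  · have hc8' : c.natAbs ≤ 8 := natAbs_le8 hc8
    have hn8 : 8 ≤ n := by
      rw [← hn]
      have h3 := Int.natAbs_dvd_natAbs.2 h8
      exact Nat.le_of_dvd (Nat.pos_of_ne_zero (Int.natAbs_ne_zero.2 hN0)) h3
    have hc64 : c.natAbs ^ 2 ≤ 64 := Nat.pow_le_pow_left hc8' 2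
    have h64 : n * (8 * k) ≤ 64 * F := by
      rw [he]
      exact Nat.mul_le_mul_right F hc64
    rcases h2 h8 with h | ⟨h, h'⟩
    · have h5 : 8 * (8 * k) ≤ n * (8 * k) := Nat.mul_le_mul_right _ hn8
      omega
    · have hk1 : 0 < k := by
        rw [← hk]
        exact Nat.pos_of_ne_zero (Int.natAbs_ne_zero.2 hK0)
      have h5 : 8 * (8 * k) < n * (8 * k) := Nat.mul_lt_mul_of_pos_right h' (by omega)
      omega

lemma not_both_even {a b : ℤ} (h : IsCoprime a b) : Odd a ∨ Odd b := by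
  by_contra hcon
  rw [not_or, Int.not_odd_iff_even, Int.not_odd_iff_even] at hcon
  obtain ⟨⟨r, hr⟩, ⟨s, hs⟩⟩ := hcon
  obtain ⟨u, w, huw⟩ := h
  rw [hr, hs] at huw
  have h2 : 2 * (u * r + w * s) = 1 := by linear_combination huw
  omega

lemma dvd3_of_dvd_pow4 {b : ℤ} (h : (3 : ℤ) ∣ b ^ 4) : (3 : ℤ) ∣ b :=
  (Int.prime_three).dvd_of_dvd_pow h

lemma cop3 {a : ℤ} (h : ¬ (3 : ℤ) ∣ a) : IsCoprime (3 : ℤ) a :=
  (Int.prime_three.coprime_iff_not_dvd).2 h

lemma case1 (a b : ℤ) (ha : a ≠ 0) (hb : 0 < b) (hab : IsCoprime a b) (h3 : ¬ (3 : ℤ) ∣ a)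
    (h2 : 2 ≤ a.natAbs * b.natAbs) :
    a.natAbs * b.natAbs <
      Ph (((a ^ 4 - 6 * a ^ 2 * b ^ 2 - 3 * b ^ 4 : ℤ) : ℚ) / ((8 * (a ^ 3 * b) : ℤ) : ℚ)) := by
  have hN0 : (a ^ 4 - 6 * a ^ 2 * b ^ 2 - 3 * b ^ 4 : ℤ) ≠ 0 := by
    intro h
    apply h3
    apply dvd3_of_dvd_pow4
    exact ⟨2 * a ^ 2 * b ^ 2 + b ^ 4, by linear_combination h⟩
  have hK0 : (a ^ 3 * b : ℤ) ≠ 0 := mul_ne_zero (pow_ne_zero _ ha) (ne_of_gt hb)
  have c1 : IsCoprime (a ^ 4 - 6 * a ^ 2 * b ^ 2 - 3 * b ^ 4) a := by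
    have h1 : IsCoprime (3 * b ^ 4) a := (cop3 h3).mul_left (hab.symm.pow_left)
    obtain ⟨u, v, h⟩ := h1
    exact ⟨-u, v + u * (a ^ 3 - 6 * a * b ^ 2), by linear_combination h⟩
  have c2 : IsCoprime (a ^ 4 - 6 * a ^ 2 * b ^ 2 - 3 * b ^ 4) b := by
    have h1 : IsCoprime (a ^ 4) b := hab.pow_left
    obtain ⟨u, v, h⟩ := h1
    exact ⟨u, v + u * (6 * a ^ 2 * b + 3 * b ^ 3), by linear_combination h⟩
  have hpar : Odd (a ^ 4 - 6 * a ^ 2 * b ^ 2 - 3 * b ^ 4) ∨
      (8 : ℤ) ∣ (a ^ 4 - 6 * a ^ 2 * b ^ 2 - 3 * b ^ 4) := by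
    rcases Int.even_or_odd a with hea | hoa
    · left
      have hob : Odd b := by
        rcases not_both_even hab with h | h
        · exact absurd hea (Int.not_even_iff_odd.2 h)
        · exact h
      obtain ⟨r, hr⟩ := hea
      obtain ⟨s, hs⟩ := hob.pow (n := 4)
      exact ⟨8 * r ^ 4 - 12 * r ^ 2 * b ^ 2 - 3 * s - 2, by
        rw [hr]; linear_combination (-3) * hs⟩
    · rcases Int.even_or_odd b with heb | hob
      · left
        obtain ⟨r, hr⟩ := heb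
        obtain ⟨s, hs⟩ := hoa.pow (n := 4)
        exact ⟨s - 12 * a ^ 2 * r ^ 2 - 24 * r ^ 4, by
          rw [hr]; linear_combination hs⟩
      · right
        obtain ⟨r, hr⟩ := odd_sq8 hoa
        obtain ⟨s, hs⟩ := odd_sq8 hob
        refine ⟨r * (a ^ 2 + 1) - 6 * r * b ^ 2 - 6 * s - 3 * s * (b ^ 2 + 1) - 1, ?_⟩
        linear_combination (a ^ 2 + 1 - 6 * b ^ 2) * hr - (6 + 3 * (b ^ 2 + 1)) * hs
  have ha1 : 1 ≤ a.natAbs := Nat.one_le_iff_ne_zero.2 (Int.natAbs_ne_zero.2 ha)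
  have hb1 : 1 ≤ b.natAbs := Nat.one_le_iff_ne_zero.2 (Int.natAbs_ne_zero.2 (ne_of_gt hb))
  apply core _ _ _ (a.natAbs ^ 3 * b.natAbs) _ hN0 hK0 ((c1.pow_right).mul_right c2) rfl
    (by rw [Int.natAbs_mul, Int.natAbs_pow]) hpar
  · have h5 : a.natAbs ≤ a.natAbs ^ 3 := Nat.le_self_pow (by norm_num) _
    have h6 : a.natAbs * b.natAbs ≤ a.natAbs ^ 3 * b.natAbs := Nat.mul_le_mul_right _ h5
    omega
  · intro _
    rcases Nat.lt_or_ge 1 a.natAbs with h | h
    · left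
      have h5 : a.natAbs < a.natAbs ^ 3 := lt_self_pow₀ h (by norm_num)
      exact Nat.mul_lt_mul_of_pos_right h5 hb1
    · right
      have ha' : a.natAbs = 1 := le_antisymm h ha1
      refine ⟨by rw [ha']; norm_num, ?_⟩
      have hb2 : 2 ≤ b.natAbs := by
        rw [ha'] at h2
        omega
      have hb2' : (2 : ℤ) ≤ b := by omega
      have hasq : a ^ 2 = 1 := by
        have := Int.natAbs_sq a
        rw [← Int.natAbs_sq a, ha']
        norm_num
      have ha4 : a ^ 4 = 1 := by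
        calc a ^ 4 = (a ^ 2) ^ 2 := by ring
          _ = 1 := by rw [hasq]; norm_num
      have hlt : (a ^ 4 - 6 * a ^ 2 * b ^ 2 - 3 * b ^ 4) < -8 := by
        rw [ha4, hasq]
        nlinarith [mul_self_nonneg (b ^ 2), mul_self_nonneg b]
      omega

lemma case2 (c b : ℤ) (hc : c ≠ 0) (hb : 0 < b) (hcb : IsCoprime (3 * c) b) :
    3 * c.natAbs * b.natAbs <
      Ph (((27 * c ^ 4 - 18 * c ^ 2 * b ^ 2 - b ^ 4 : ℤ) : ℚ) / ((8 * (9 * c ^ 3 * b) : ℤ) : ℚ)) := by
  have h3b : IsCoprime 3 b := hcb.of_mul_left_left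
  have hcb' : IsCoprime c b := hcb.of_mul_left_right
  have hN0 : (27 * c ^ 4 - 18 * c ^ 2 * b ^ 2 - b ^ 4 : ℤ) ≠ 0 := by
    intro h
    have h3 : (3 : ℤ) ∣ b := by
      apply dvd3_of_dvd_pow4
      exact ⟨9 * c ^ 4 - 6 * c ^ 2 * b ^ 2, by linear_combination -h⟩
    exact (Int.prime_three.coprime_iff_not_dvd).1 h3b h3
  have hK0 : (9 * c ^ 3 * b : ℤ) ≠ 0 :=
    mul_ne_zero (mul_ne_zero (by norm_num) (pow_ne_zero _ hc)) (ne_of_gt hb)
  have c0 : IsCoprime (27 * c ^ 4 - 18 * c ^ 2 * b ^ 2 - b ^ 4) 3 := by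
    have h1 : IsCoprime (b ^ 4) 3 := h3b.symm.pow_left
    obtain ⟨u, v, h⟩ := h1
    exact ⟨-u, v + u * (9 * c ^ 4 - 6 * c ^ 2 * b ^ 2), by linear_combination h⟩
  have c1 : IsCoprime (27 * c ^ 4 - 18 * c ^ 2 * b ^ 2 - b ^ 4) c := by
    have h1 : IsCoprime (b ^ 4) c := hcb'.symm.pow_left
    obtain ⟨u, v, h⟩ := h1
    exact ⟨-u, v + u * (27 * c ^ 3 - 18 * c * b ^ 2), by linear_combination h⟩
  have c2 : IsCoprime (27 * c ^ 4 - 18 * c ^ 2 * b ^ 2 - b ^ 4) b := by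
    have h1 : IsCoprime (27 * c ^ 4) b := by
      have h27 : IsCoprime ((3 : ℤ) ^ 3) b := h3b.pow_left
      have h27' : IsCoprime (27 : ℤ) b := by
        have e : ((3 : ℤ) ^ 3) = 27 := by norm_num
        rw [e] at h27
        exact h27
      exact h27'.mul_left hcb'.pow_left
    obtain ⟨u, v, h⟩ := h1
    exact ⟨u, v + u * (18 * c ^ 2 * b + b ^ 3), by linear_combination h⟩
  have c9 : IsCoprime (27 * c ^ 4 - 18 * c ^ 2 * b ^ 2 - b ^ 4) 9 := by
    have h9 : IsCoprime (27 * c ^ 4 - 18 * c ^ 2 * b ^ 2 - b ^ 4) ((3 : ℤ) ^ 2) := c0.pow_right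
    have e : ((3 : ℤ) ^ 2) = 9 := by norm_num
    rw [e] at h9
    exact h9
  have hpar : Odd (27 * c ^ 4 - 18 * c ^ 2 * b ^ 2 - b ^ 4) ∨
      (8 : ℤ) ∣ (27 * c ^ 4 - 18 * c ^ 2 * b ^ 2 - b ^ 4) := by
    rcases Int.even_or_odd c with hea | hoa
    · left
      have hob : Odd b := by
        rcases not_both_even hcb' with h | h
        · exact absurd hea (Int.not_even_iff_odd.2 h)
        · exact h
      obtain ⟨r, hr⟩ := hea
      obtain ⟨s, hs⟩ := hob.pow (n := 4)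
      exact ⟨216 * r ^ 4 - 36 * r ^ 2 * b ^ 2 - s - 1, by
        rw [hr]; linear_combination (-1) * hs⟩
    · rcases Int.even_or_odd b with heb | hob
      · left
        obtain ⟨r, hr⟩ := heb
        obtain ⟨s, hs⟩ := hoa.pow (n := 4)
        exact ⟨27 * s + 13 - 36 * c ^ 2 * r ^ 2 - 8 * r ^ 4, by
          rw [hr]; linear_combination 27 * hs⟩
      · right
        obtain ⟨r, hr⟩ := odd_sq8 hoa
        obtain ⟨s, hs⟩ := odd_sq8 hob
        refine ⟨27 * r * (c ^ 2 + 1) - 18 * r * b ^ 2 - 18 * s - s * (b ^ 2 + 1) + 1, ?_⟩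
        linear_combination (27 * (c ^ 2 + 1) - 18 * b ^ 2) * hr - (18 + (b ^ 2 + 1)) * hs
  have ha1 : 1 ≤ c.natAbs := Nat.one_le_iff_ne_zero.2 (Int.natAbs_ne_zero.2 hc)
  have hb1 : 1 ≤ b.natAbs := Nat.one_le_iff_ne_zero.2 (Int.natAbs_ne_zero.2 (ne_of_gt hb))
  have h5 : c.natAbs ≤ c.natAbs ^ 3 := Nat.le_self_pow (by norm_num) _
  have h6 : c.natAbs * b.natAbs ≤ c.natAbs ^ 3 * b.natAbs := Nat.mul_le_mul_right _ h5
  have h7 : 1 ≤ c.natAbs * b.natAbs := Nat.mul_pos ha1 hb1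
  have e1 : 3 * c.natAbs * b.natAbs = 3 * (c.natAbs * b.natAbs) := by ring
  have e2 : 9 * c.natAbs ^ 3 * b.natAbs = 9 * (c.natAbs ^ 3 * b.natAbs) := by ring
  apply core _ _ _ (9 * c.natAbs ^ 3 * b.natAbs) _ hN0 hK0
    ((c9.mul_right (c1.pow_right)).mul_right c2) rfl
    (by rw [Int.natAbs_mul, Int.natAbs_mul, Int.natAbs_pow]; rfl) hpar
  · rw [e1, e2]
    omega
  · intro _
    left
    rw [e1, e2]
    omega

/-- the key inequality -/
theorem key (t : ℚ) (h : 2 ≤ Ph t) : Ph t < Ph (dup t) := by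
  have hn : t.num ≠ 0 := by
    intro h0
    unfold Ph at h
    rw [h0] at h
    norm_num at h
  have hd : (0 : ℤ) < (t.den : ℤ) := by exact_mod_cast t.den_pos
  have hcop : IsCoprime t.num (t.den : ℤ) := by
    have := t.reduced
    exact Int.isCoprime_iff_gcd_eq_one.2 (by
      rw [Int.gcd, Int.natAbs_natCast]
      exact this)
  have ht : t = (t.num : ℚ) / (t.den : ℚ) := (Rat.num_div_den t).symm
  have hPh : Ph t = t.num.natAbs * (t.den : ℤ).natAbs := by
    unfold Ph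
    rw [Int.natAbs_natCast]
  have hnq : (t.num : ℚ) ≠ 0 := by exact_mod_cast hn
  have hdq : (t.den : ℚ) ≠ 0 := by exact_mod_cast t.den_pos.ne'
  by_cases h3 : (3 : ℤ) ∣ t.num
  · obtain ⟨c, hc⟩ := h3
    have hc0 : c ≠ 0 := by
      rintro rfl
      exact hn (by rw [hc]; norm_num)
    have h1 := case2 c (t.den : ℤ) hc0 hd (by rw [← hc]; exact hcop)
    have e1 : Ph t = 3 * c.natAbs * (t.den : ℤ).natAbs := by
      rw [hPh, hc, Int.natAbs_mul]
      rfl
    have hcq : (t.num : ℚ) = 3 * (c : ℚ) := by rw [hc]; push_cast; ring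
    have hcq0 : (c : ℚ) ≠ 0 := by exact_mod_cast hc0
    have e2 : dup t = (((27 * c ^ 4 - 18 * c ^ 2 * (t.den : ℤ) ^ 2 - (t.den : ℤ) ^ 4 : ℤ) : ℚ) /
        ((8 * (9 * c ^ 3 * (t.den : ℤ)) : ℤ) : ℚ)) := by
      unfold dup
      have ht' : t = (3 * (c : ℚ)) / (t.den : ℚ) := by rw [← hcq]; exact ht
      push_cast
      generalize (t.den : ℚ) = d at *
      rw [ht']
      field_simp
      ring
    rw [e1, e2]
    exact h1
  · have h1 := case1 t.num (t.den : ℤ) hn hd hcop h3 (by rw [← hPh]; exact h)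
    have e2 : dup t = (((t.num ^ 4 - 6 * t.num ^ 2 * (t.den : ℤ) ^ 2 - 3 * (t.den : ℤ) ^ 4 : ℤ) : ℚ) /
        ((8 * (t.num ^ 3 * (t.den : ℤ)) : ℤ) : ℚ)) := by
      unfold dup
      push_cast
      generalize (t.den : ℚ) = d at *
      generalize (t.num : ℚ) = n at *
      rw [ht]
      field_simp
    rw [hPh, e2]
    exact h1

/-! ### Points -/

/-- duplication on `y² = x³ + b` -/
lemma dbl (a b : ℚ) (ha : a = 0) {x y : ℚ} (h : (crv a b).toAffine.Nonsingular x y) (hy : y ≠ 0) :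
    ∃ (X Y : ℚ) (h' : (crv a b).toAffine.Nonsingular X Y),
      (Affine.Point.some x y h : Pt a b) + Affine.Point.some x y h = Affine.Point.some X Y h' ∧
      X = x * (y ^ 2 - 9 * b) / (4 * y ^ 2) ∧
      Y = (y ^ 4 + 18 * b * y ^ 2 - 27 * b ^ 2) / (8 * y ^ 3) := by
  have hne : y ≠ (crv a b).toAffine.negY x y := by
    simp only [Affine.negY]
    intro h1
    apply hy
    linarith
  have heq : y ^ 2 = x ^ 3 + b := by
    have h1 := (Affine.equation_iff _ _).1 h.1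
    simp only [ha] at h1
    linear_combination h1
  have hsl : (crv a b).toAffine.slope x x y y = 3 * x ^ 2 / (2 * y) := by
    rw [Affine.slope_of_Y_ne rfl hne]
    simp only [Affine.negY]
    rw [ha]
    congr 1
    · ring
    · ring
  refine ⟨_, _, _, Affine.Point.add_self_of_Y_ne hne, ?_, ?_⟩
  · rw [hsl]
    simp only [Affine.addX]
    field_simp
    linear_combination (-(36 : ℚ)) * x * heq
  · rw [hsl]
    simp only [Affine.addY, Affine.negAddY, Affine.addX, Affine.negY]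
    field_simp
    linear_combination (-72 * y ^ 2 + 216 * x ^ 3 - 216 * b) * heq

/-- the function on points -/
def PP (A a b : ℚ) (P : Pt a b) : ℕ :=
  match P with
  | .zero => 0
  | .some _ Y _ => Ph (Y / (36 * A))

lemma PP_dbl (A : ℚ) (hA : A ≠ 0) (a b : ℚ) (ha : a = 0) (hb : b = -432 * A ^ 2) (P : Pt a b)
    (h : 2 ≤ PP A a b P) : PP A a b P < PP A a b (P + P) := by
  rcases P with _ | ⟨x, y, hxy⟩
  · exact absurd h (by simp [PP])
  · have hy : y ≠ 0 := by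
      rintro rfl
      have : PP A a b (Affine.Point.some x 0 hxy) = Ph (0 / (36 * A)) := rfl
      rw [this, zero_div] at h
      have h0 : Ph 0 = 0 := by
        unfold Ph
        norm_num
      rw [h0] at h
      omega
    obtain ⟨X, Y, h', e, -, eY⟩ := dbl a b ha hxy hy
    have e1 : PP A a b (Affine.Point.some x y hxy) = Ph (y / (36 * A)) := rfl
    have e2 : PP A a b (Affine.Point.some X Y h') = Ph (Y / (36 * A)) := rfl
    have e3 : Y / (36 * A) = dup (y / (36 * A)) := by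
      unfold dup
      rw [eY, hb]
      field_simp
      ring
    rw [e1] at h
    rw [e, e1, e2, e3]
    exact key _ h

lemma PP_pow (A : ℚ) (hA : A ≠ 0) (a b : ℚ) (ha : a = 0) (hb : b = -432 * A ^ 2) (P : Pt a b)
    (h : 2 ≤ PP A a b P) (n : ℕ) : 2 ≤ PP A a b (2 ^ n • P) ∧
      PP A a b (2 ^ n • P) < PP A a b (2 ^ (n + 1) • P) := by
  induction n with
  | zero =>
    have e0 : (2 ^ 0 : ℕ) • P = P := by rw [pow_zero, one_nsmul]
    have e1 : (2 ^ (0 + 1) : ℕ) • P = P + P := by rw [zero_add, pow_one, two_nsmul]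
    rw [e0, e1]
    exact ⟨h, PP_dbl A hA a b ha hb P h⟩
  | succ n ih =>
    have h2 : 2 ≤ PP A a b (2 ^ (n + 1) • P) := by omega
    refine ⟨h2, ?_⟩
    have e1 : (2 ^ (n + 1 + 1) : ℕ) • P = (2 ^ (n + 1) : ℕ) • P + (2 ^ (n + 1) : ℕ) • P := by
      rw [← two_nsmul, ← mul_nsmul, pow_succ 2 (n + 1)]
    rw [e1]
    exact PP_dbl A hA a b ha hb _ h2

lemma PP_tors (A : ℚ) (hA : A ≠ 0) (a b : ℚ) (ha : a = 0) (hb : b = -432 * A ^ 2) (P : Pt a b)
    (hP : IsOfFinAddOrder P) : PP A a b P < 2 := by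
  by_contra hcon
  rw [not_lt] at hcon
  have hfin : (AddSubmonoid.multiples P : Set (Pt a b)).Finite := finite_multiples.2 hP
  have hmono : StrictMono (fun n : ℕ => PP A a b (2 ^ n • P)) :=
    strictMono_nat_of_lt_succ (fun n => (PP_pow A hA a b ha hb P hcon n).2)
  have hinj : Function.Injective (fun n : ℕ => (2 ^ n : ℕ) • P) := by
    intro m n hmn
    apply hmono.injective
    exact congrArg (PP A a b) hmn
  have hinf : (Set.range (fun n : ℕ => (2 ^ n : ℕ) • P)).Infinite := Set.infinite_range_of_injective hinj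
  apply hinf
  apply hfin.subset
  rintro _ ⟨n, rfl⟩
  exact ⟨2 ^ n, rfl⟩

lemma Ph_lt2 {t : ℚ} (h : Ph t < 2) : t = 0 ∨ t = 1 ∨ t = -1 := by
  unfold Ph at h
  have hd : 0 < t.den := t.den_pos
  by_cases hn : t.num = 0
  · left
    exact Rat.num_eq_zero.1 hn
  · right
    have hn1 : 1 ≤ t.num.natAbs := Nat.one_le_iff_ne_zero.2 (Int.natAbs_ne_zero.2 hn)
    have hn2 : t.num.natAbs = 1 := by
      by_contra hne
      have h2 : 2 ≤ t.num.natAbs := by omega
      have := Nat.mul_le_mul h2 hd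
      omega
    have hd2 : t.den = 1 := by
      rw [hn2] at h
      omega
    have ht : t = (t.num : ℚ) := by
      have := Rat.num_div_den t
      rw [hd2] at this
      rw [← this]
      norm_num
    rcases Int.natAbs_eq_iff.1 hn2 with h3 | h3
    · left
      rw [ht, h3]
      norm_num
    · right
      rw [ht, h3]
      norm_num

/-- the torsion points -/
lemma tors (A : ℚ) (hA : A ≠ 0) (a b : ℚ) (ha : a = 0) (hb : b = -432 * A ^ 2) {x y : ℚ}
    (h : (crv a b).toAffine.Nonsingular x y)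
    (hP : IsOfFinAddOrder (Affine.Point.some x y h : Pt a b)) :
    y = 0 ∨ y = 36 * A ∨ y = -(36 * A) := by
  have h1 : Ph (y / (36 * A)) < 2 := PP_tors A hA a b ha hb _ hP
  have h36 : (36 * A : ℚ) ≠ 0 := mul_ne_zero (by norm_num) hA
  rcases Ph_lt2 h1 with h2 | h2 | h2
  · left
    rcases div_eq_zero_iff.1 h2 with h3 | h3
    · exact h3
    · exact absurd h3 h36
  · right; left
    rw [div_eq_iff h36] at h2
    rw [h2, one_mul]
  · right; right
    rw [div_eq_iff h36] at h2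
    rw [h2]
    ring

lemma ns (a b : ℚ) (ha : a = 0) (hb : b ≠ 0) {x y : ℚ} (h : y ^ 2 = x ^ 3 + b) :
    (crv a b).toAffine.Nonsingular x y := by
  rw [Affine.nonsingular_iff]
  refine ⟨(Affine.equation_iff _ _).2 ?_, ?_⟩
  · simp only [ha]
    linear_combination h
  · by_cases hy : y = 0
    · left
      intro h1
      simp only [ha, hy] at h1
      have hx : x ^ 2 = 0 := by linarith
      have hx0 : x = 0 := pow_eq_zero_iff (two_ne_zero) |>.1 hx
      rw [hy, hx0] at h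
      apply hb
      linarith
    · right
      intro h1
      apply hy
      simp only at h1
      linarith

lemma eqn (a b : ℚ) (ha : a = 0) {x y : ℚ} (h : (crv a b).toAffine.Nonsingular x y) :
    y ^ 2 = x ^ 3 + b := by
  have h1 := (Affine.equation_iff _ _).1 h.1
  simp only [ha] at h1
  linear_combination h1

lemma tors_two (a b : ℚ) {x : ℚ} (h : (crv a b).toAffine.Nonsingular x 0) :
    IsOfFinAddOrder (Affine.Point.some x 0 h : Pt a b) := by
  rw [isOfFinAddOrder_iff_nsmul_eq_zero]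
  refine ⟨2, by norm_num, ?_⟩
  rw [two_nsmul]
  apply Affine.Point.add_self_of_Y_eq
  simp only [Affine.negY]
  ring

lemma tors_three (A : ℚ) (hA : A ≠ 0) (a b : ℚ) (ha : a = 0) (hb : b = -432 * A ^ 2) {x : ℚ}
    (h : (crv a b).toAffine.Nonsingular x (36 * A)) :
    IsOfFinAddOrder (Affine.Point.some x (36 * A) h : Pt a b) := by
  rw [isOfFinAddOrder_iff_nsmul_eq_zero]
  refine ⟨3, by norm_num, ?_⟩
  have h36 : (36 * A : ℚ) ≠ 0 := mul_ne_zero (by norm_num) hA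
  obtain ⟨X, Y, h', e, eX, eY⟩ := dbl a b ha h h36
  have e3 : (3 : ℕ) • (Affine.Point.some x (36 * A) h : Pt a b) =
      (Affine.Point.some x (36 * A) h + Affine.Point.some x (36 * A) h) +
        Affine.Point.some x (36 * A) h := by
    rw [succ_nsmul, two_nsmul]
  rw [e3, e]
  apply Affine.Point.add_of_Y_eq
  · rw [eX, hb]
    field_simp
    ring
  · simp only [Affine.negY]
    rw [eY, hb]
    field_simp
    ring

/-- classification of the torsion points -/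
lemma cls4 (A : ℚ) (hA : A ≠ 0) (a b : ℚ) (ha : a = 0) (hb : b = -432 * A ^ 2) (P : Pt a b)
    (hP : IsOfFinAddOrder P) :
    P = 0 ∨ (∃ (x : ℚ) (h : (crv a b).toAffine.Nonsingular x 0), P = Affine.Point.some x 0 h) ∨
    (∃ (x : ℚ) (h : (crv a b).toAffine.Nonsingular x (36 * A)),
      P = Affine.Point.some x (36 * A) h) ∨
    (∃ (x : ℚ) (h : (crv a b).toAffine.Nonsingular x (36 * A)),
      P = -Affine.Point.some x (36 * A) h) := by
  rcases P with _ | ⟨x, y, h⟩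
  · left; rfl
  · right
    rcases tors A hA a b ha hb h hP with h1 | h1 | h1
    · left
      subst h1
      exact ⟨x, h, rfl⟩
    · right; left
      subst h1
      exact ⟨x, h, rfl⟩
    · right; right
      have hb0 : b ≠ 0 := by
        rw [hb]
        exact mul_ne_zero (by norm_num) (pow_ne_zero _ hA)
      have h2 : (crv a b).toAffine.Nonsingular x (36 * A) := by
        apply ns a b ha hb0
        have := eqn a b ha h
        rw [h1] at this
        rw [← this]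
        ring
      refine ⟨x, h2, ?_⟩
      rw [Affine.Point.neg_some, Affine.Point.some.injEq]
      refine ⟨rfl, ?_⟩
      simp only [Affine.negY]
      rw [h1]
      ring

lemma some_uniq (a b : ℚ) (ha : a = 0) {x x' y : ℚ} (h : (crv a b).toAffine.Nonsingular x y)
    (h' : (crv a b).toAffine.Nonsingular x' y) :
    (Affine.Point.some x y h : Pt a b) = Affine.Point.some x' y h' := by
  rw [Affine.Point.some.injEq]
  refine ⟨?_, rfl⟩
  have h1 := eqn a b ha h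
  have h2 := eqn a b ha h'
  have h3 : x ^ 3 = x' ^ 3 := by linarith
  exact (Odd.pow_inj (by decide)).1 h3

lemma den_of_cube {r : ℚ} {k : ℤ} (h : r ^ 3 = (k : ℚ)) : ∃ m : ℤ, r = (m : ℚ) := by
  have h1 : (r ^ 3).den = 1 := by
    rw [h]
    exact Rat.den_intCast k
  rw [Rat.den_pow] at h1
  have h2 : r.den = 1 := by
    exact Nat.pow_eq_one.1 h1 |>.resolve_right (by norm_num)
  refine ⟨r.num, ?_⟩
  have := Rat.num_div_den r
  rw [h2] at this
  rw [← this]
  norm_num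

/-- `x³ = 1728 A²` -/
lemma sol3 (A : ℤ) (hA : A ≠ 0) : (∃ x : ℚ, x ^ 3 = 1728 * (A : ℚ) ^ 2) ↔ ∃ m : ℤ, A = m ^ 3 := by
  have hAq : (A : ℚ) ≠ 0 := by exact_mod_cast hA
  constructor
  · rintro ⟨x, hx⟩
    have hx0 : x ≠ 0 := by
      rintro rfl
      have : (1728 * (A : ℚ) ^ 2) ≠ 0 := mul_ne_zero (by norm_num) (pow_ne_zero _ hAq)
      apply this
      rw [← hx]
      norm_num
    have h1 : ((12 * (A : ℚ)) / x) ^ 3 = (A : ℚ) := by
      rw [div_pow, hx]
      field_simp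
      norm_num
    obtain ⟨m, hm⟩ := den_of_cube h1
    refine ⟨m, ?_⟩
    rw [hm] at h1
    exact_mod_cast h1.symm
  · rintro ⟨m, hm⟩
    refine ⟨12 * (m : ℚ) ^ 2, ?_⟩
    rw [hm]
    push_cast
    ring

/-- `x³ = 432 A²` -/
lemma sol2 (A : ℤ) (hA : A ≠ 0) : (∃ x : ℚ, x ^ 3 = 432 * (A : ℚ) ^ 2) ↔ ∃ m : ℤ, A = 2 * m ^ 3 := by
  have hAq : (A : ℚ) ≠ 0 := by exact_mod_cast hA
  constructor
  · rintro ⟨x, hx⟩
    have hx0 : x ≠ 0 := by
      rintro rfl
      have : (432 * (A : ℚ) ^ 2) ≠ 0 := mul_ne_zero (by norm_num) (pow_ne_zero _ hAq)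
      apply this
      rw [← hx]
      norm_num
    have h1 : ((12 * (A : ℚ)) / x) ^ 3 = ((4 * A : ℤ) : ℚ) := by
      rw [div_pow, hx]
      push_cast
      field_simp
      norm_num
    obtain ⟨k, hk⟩ := den_of_cube h1
    rw [hk] at h1
    have h2 : k ^ 3 = 4 * A := by exact_mod_cast h1
    have h3 : (2 : ℤ) ∣ k := by
      apply Int.prime_two.dvd_of_dvd_pow (n := 3)
      exact ⟨2 * A, by rw [h2]; ring⟩
    obtain ⟨m, hm⟩ := h3
    refine ⟨m, ?_⟩
    rw [hm] at h2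
    have h4 : 4 * A = 4 * (2 * m ^ 3) := by rw [← h2]; ring
    exact mul_left_cancel₀ (by norm_num) h4
  · rintro ⟨m, hm⟩
    refine ⟨12 * (m : ℚ) ^ 2, ?_⟩
    rw [hm]
    push_cast
    ring

/-- `4` is not a cube -/
lemma four (r : ℚ) (h : r ^ 3 = 4) : False := by
  have h1 : r ^ 3 = ((4 : ℤ) : ℚ) := by rw [h]; norm_num
  obtain ⟨k, hk⟩ := den_of_cube h1
  rw [hk] at h1
  have h2 : k ^ 3 = 4 := by exact_mod_cast h1
  have h3 : (2 : ℤ) ∣ k := by
    apply Int.prime_two.dvd_of_dvd_pow (n := 3)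
    exact ⟨2, by rw [h2]; norm_num⟩
  obtain ⟨m, hm⟩ := h3
  rw [hm] at h2
  have h5 : 8 * m ^ 3 = 4 := by rw [← h2]; ring
  omega

lemma zm {G : Type} [AddCommGroup G] (T : AddSubgroup G) (Q R : G) (hQ : Q ∈ T) (hR : R ∈ T)
    (k : ℤ) (h : R = k • Q) : (fun n : ℤ => n • (⟨Q, hQ⟩ : T)) k = ⟨R, hR⟩ := by
  apply Subtype.ext
  exact h.symm

theorem main (A : ℤ) (hA : A ≠ 0) (a b : ℚ) (ha : a = 0) (hb : b = -432 * (A : ℚ) ^ 2) :
    IsAddCyclic (AddCommGroup.torsion (Pt a b)) ∧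
      (AddCommGroup.torsion (Pt a b) ≠ ⊥ ↔ ∃ m : ℤ, A = m ^ 3 ∨ A = 2 * m ^ 3) := by
  have hAq : (A : ℚ) ≠ 0 := by exact_mod_cast hA
  have hb0 : b ≠ 0 := by
    rw [hb]
    exact mul_ne_zero (by norm_num) (pow_ne_zero _ hAq)
  constructor
  · by_cases h1 : ∃ (x : ℚ) (_ : (crv a b).toAffine.Nonsingular x (36 * (A : ℚ))), True
    · obtain ⟨x, h, -⟩ := h1
      have hQ : (Affine.Point.some x (36 * (A : ℚ)) h : Pt a b) ∈ AddCommGroup.torsion (Pt a b) :=
        tors_three (A : ℚ) hAq a b ha hb h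
      refine ⟨⟨⟨Affine.Point.some x (36 * (A : ℚ)) h, hQ⟩, ?_⟩⟩
      rintro ⟨R, hR⟩
      rcases cls4 (A : ℚ) hAq a b ha hb R hR with e | ⟨x', h', e⟩ | ⟨x', h', e⟩ | ⟨x', h', e⟩
      · exact ⟨0, zm _ _ _ _ _ _ (by rw [e, zero_zsmul])⟩
      · exfalso
        have e1 := eqn a b ha h
        have e2 := eqn a b ha h'
        rw [hb] at e1 e2
        have hx' : x' ≠ 0 := by
          rintro rfl
          have : (A : ℚ) ^ 2 = 0 := by linarith
          exact pow_ne_zero 2 hAq this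
        apply four (x / x')
        rw [div_pow, div_eq_iff (pow_ne_zero 3 hx')]
        linarith
      · exact ⟨1, zm _ _ _ _ _ _ (by rw [e, one_zsmul, some_uniq a b ha h h'])⟩
      · exact ⟨-1, zm _ _ _ _ _ _ (by rw [e, neg_one_zsmul, some_uniq a b ha h h'])⟩
    · by_cases h2 : ∃ (x : ℚ) (_ : (crv a b).toAffine.Nonsingular x 0), True
      · obtain ⟨x, h, -⟩ := h2
        have hQ : (Affine.Point.some x 0 h : Pt a b) ∈ AddCommGroup.torsion (Pt a b) :=
          tors_two a b h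
        refine ⟨⟨⟨Affine.Point.some x 0 h, hQ⟩, ?_⟩⟩
        rintro ⟨R, hR⟩
        rcases cls4 (A : ℚ) hAq a b ha hb R hR with e | ⟨x', h', e⟩ | ⟨x', h', e⟩ | ⟨x', h', e⟩
        · exact ⟨0, zm _ _ _ _ _ _ (by rw [e, zero_zsmul])⟩
        · exact ⟨1, zm _ _ _ _ _ _ (by rw [e, one_zsmul, some_uniq a b ha h h'])⟩
        · exact absurd ⟨x', h', trivial⟩ h1
        · exact absurd ⟨x', h', trivial⟩ h1
      · refine ⟨⟨⟨0, AddSubgroup.zero_mem _⟩, ?_⟩⟩
        rintro ⟨R, hR⟩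
        rcases cls4 (A : ℚ) hAq a b ha hb R hR with e | ⟨x', h', e⟩ | ⟨x', h', e⟩ | ⟨x', h', e⟩
        · exact ⟨0, zm _ _ _ _ _ _ (by rw [e, zero_zsmul])⟩
        · exact absurd ⟨x', h', trivial⟩ h2
        · exact absurd ⟨x', h', trivial⟩ h1
        · exact absurd ⟨x', h', trivial⟩ h1
  · have hiff : (∃ m : ℤ, A = m ^ 3 ∨ A = 2 * m ^ 3) ↔
        (∃ x : ℚ, x ^ 3 = 1728 * (A : ℚ) ^ 2) ∨ (∃ x : ℚ, x ^ 3 = 432 * (A : ℚ) ^ 2) := by
      rw [sol3 A hA, sol2 A hA, exists_or]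
    rw [hiff]
    constructor
    · intro hne
      obtain ⟨⟨R, hR⟩, hR1⟩ := AddSubgroup.ne_bot_iff_exists_ne_zero.1 hne
      have hR0 : R ≠ 0 := fun h0 => hR1 (Subtype.ext h0)
      rcases cls4 (A : ℚ) hAq a b ha hb R hR with e | ⟨x', h', e⟩ | ⟨x', h', e⟩ | ⟨x', h', e⟩
      · exact absurd e hR0
      · right
        have e1 := eqn a b ha h'
        rw [hb] at e1
        exact ⟨x', by linarith⟩
      · left
        have e1 := eqn a b ha h'
        rw [hb] at e1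
        exact ⟨x', by linarith⟩
      · left
        have e1 := eqn a b ha h'
        rw [hb] at e1
        exact ⟨x', by linarith⟩
    · rintro (⟨x, hx⟩ | ⟨x, hx⟩) hbot
      · have h : (crv a b).toAffine.Nonsingular x (36 * (A : ℚ)) := by
          apply ns a b ha hb0
          rw [hx, hb]
          ring
        have hQ : (Affine.Point.some x (36 * (A : ℚ)) h : Pt a b) ∈
            AddCommGroup.torsion (Pt a b) := tors_three (A : ℚ) hAq a b ha hb h
        rw [hbot, AddSubgroup.mem_bot] at hQ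
        exact Affine.Point.some_ne_zero h hQ
      · have h : (crv a b).toAffine.Nonsingular x 0 := by
          apply ns a b ha hb0
          rw [hx, hb]
          ring
        have hQ : (Affine.Point.some x 0 h : Pt a b) ∈
            AddCommGroup.torsion (Pt a b) := tors_two a b h
        rw [hbot, AddSubgroup.mem_bot] at hQ
        exact Affine.Point.some_ne_zero h hQ

theorem t_TOR : S_TOR := by
  intro A hA
  refine main A hA _ _ (by norm_num) ?_
  unfold bA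
  push_cast
  ring

end Pool.Agent.H189.QR.TOR
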